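import Mathlib

set_option linter.unusedSectionVars false

namespace Pool.Agent.H.MP_5de61a_co

open Finset

variable {V : Type*} [Fintype V] [DecidableEq V] (G : SimpleGraph V) [DecidableRel G.Adj]

/-- bilinear form of the adjacency matrix -/
def B (x y : V → ℤ) : ℤ := ∑ u, ∑ v, (if G.Adj u v then x u * y v else 0)

lemma B_symm (x y : V → ℤ) : B G x y = B G y x := by
  unfold B
  rw [sum_comm]
  refine sum_congr rfl fun u _ => sum_congr rfl fun v _ => ?_
  by_cases h : G.Adj u v
  · rw [if_pos h, if_pos h.symm, mul_comm]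
  · rw [if_neg h, if_neg (fun h' => h h'.symm)]

lemma B_add (x z : V → ℤ) (s : ℤ) :
    B G (x + s • z) (x + s • z) = B G x x + 2 * s * B G x z + s * s * B G z z := by
  have : B G (x + s • z) (x + s • z) = B G x x + s * B G x z + s * B G z x + s * s * B G z z := by
    unfold B
    simp only [mul_sum, ← sum_add_distrib]
    refine sum_congr rfl fun u _ => sum_congr rfl fun v _ => ?_
    split_ifs
    · simp only [Pi.add_apply, Pi.smul_apply, smul_eq_mul]; ring
    · simp
  rw [this, B_symm G z x]; ring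

lemma B_sign (x z : V → ℤ) : ∃ s : ℤ, (s = 1 ∨ s = -1) ∧
    B G (x + s • z) (x + s • z) ≤ B G x x + B G z z := by
  rcases le_total (B G x z) 0 with h | h
  · exact ⟨1, Or.inl rfl, by rw [B_add]; linarith⟩
  · exact ⟨-1, Or.inr rfl, by rw [B_add]; linarith⟩

lemma B_single (u v : V) : B G (Pi.single u 1) (Pi.single v 1) = if G.Adj u v then 1 else 0 := by
  unfold B
  rw [sum_eq_single u, sum_eq_single v]
  · simp
  · intro w _ hw; simp [hw]
  · simp
  · intro w _ hw
    refine sum_eq_zero fun w' _ => ?_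
    simp [hw]
  · simp

lemma B_pair (u v : V) : B G (Pi.single u 1 - Pi.single v 1) (Pi.single u 1 - Pi.single v 1) =
    if G.Adj u v then -2 else 0 := by
  have := B_add G (Pi.single u 1) (Pi.single v 1) (-1)
  rw [neg_one_smul, ← sub_eq_add_neg] at this
  rw [this, B_single, B_single, B_single]
  simp only [G.irrefl, if_false]
  split_ifs <;> norm_num

/-- values in -1, 0, 1 -/
def Tri (x : V → ℤ) : Prop := ∀ v, x v = 0 ∨ x v = 1 ∨ x v = -1

lemma step (x : V → ℤ) (hx : Tri x) {u v : V} (huv : u ≠ v) (hu : x u = 0) (hv : x v = 0) :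
    ∃ y : V → ℤ, Tri y ∧ ∑ w, y w = ∑ w, x w ∧
      (univ.filter (fun w => y w ≠ 0)).card = (univ.filter (fun w => x w ≠ 0)).card + 2 ∧
      B G y y ≤ B G x x + if G.Adj u v then -2 else 0 := by
  obtain ⟨s, hs, h⟩ := B_sign G x (Pi.single u 1 - Pi.single v 1)
  rw [B_pair] at h
  refine ⟨_, ?_, ?_, ?_, h⟩
  · intro w
    by_cases h1 : w = u
    · subst h1; rcases hs with rfl | rfl <;> simp [hu, huv]
    · by_cases h2 : w = v
      · subst h2; rcases hs with rfl | rfl <;> simp [hv, h1]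
      · simpa [h1, h2] using hx w
  · simp [sum_add_distrib, ← mul_sum, sum_sub_distrib]
  · have : univ.filter (fun w => (x + s • (Pi.single u 1 - Pi.single v 1 : V → ℤ)) w ≠ 0) =
        insert u (insert v (univ.filter (fun w => x w ≠ 0))) := by
      ext w
      by_cases h1 : w = u
      · subst h1; rcases hs with rfl | rfl <;> simp [hu, huv]
      · by_cases h2 : w = v
        · subst h2; rcases hs with rfl | rfl <;> simp [hv, h1]
        · simp [h1, h2]
    rw [this, card_insert_of_notMem (by simp [huv, hu]), card_insert_of_notMem (by simp [hv])]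

lemma extend (k : ℕ) : ∀ x : V → ℤ, Tri x → ∑ w, x w = 0 →
    Fintype.card V ≤ (univ.filter (fun w => x w ≠ 0)).card + k →
    ∃ y : V → ℤ, (∀ v, y v = 1 ∨ y v = -1) ∧ (∑ w, y w = 0 ∨ ∑ w, y w = 1 ∨ ∑ w, y w = -1) ∧
      B G y y ≤ B G x x := by
  induction k with
  | zero =>
    intro x hx h0 hc
    have : univ.filter (fun w => x w ≠ 0) = univ :=
      eq_univ_of_card _ (le_antisymm (card_le_univ _) (by simpa using hc))
    refine ⟨x, fun v => ?_, Or.inl h0, le_rfl⟩
    have h1 : v ∈ univ.filter (fun w => x w ≠ 0) := by rw [this]; exact mem_univ _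
    exact (hx v).resolve_left (mem_filter.1 h1).2
  | succ k ih =>
    intro x hx h0 hc
    by_cases h2 : ∃ u v, u ≠ v ∧ x u = 0 ∧ x v = 0
    · obtain ⟨u, v, huv, hu, hv⟩ := h2
      obtain ⟨y, y1, y2, y3, y4⟩ := step G x hx huv hu hv
      obtain ⟨z, z1, z2, z3⟩ := ih y y1 (y2.trans h0) (by omega)
      refine ⟨z, z1, z2, z3.trans (y4.trans ?_)⟩
      split_ifs <;> omega
    · by_cases h1 : ∃ u, x u = 0
      · obtain ⟨u, hu⟩ := h1
        obtain ⟨s, hs, h⟩ := B_sign G x (Pi.single u 1)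
        rw [B_single] at h
        refine ⟨x + s • (Pi.single u 1 : V → ℤ), fun w => ?_, ?_, by simpa using h⟩
        · by_cases hw : w = u
          · subst hw; rcases hs with rfl | rfl <;> simp [hu]
          · have : x w ≠ 0 := fun h' => h2 ⟨w, u, hw, h', hu⟩
            simpa [hw] using (hx w).resolve_left this
        · right
          simp only [Pi.add_apply, sum_add_distrib, h0, Pi.smul_apply, smul_eq_mul, ← mul_sum]
          rcases hs with rfl | rfl <;> simp
      · push Not at h1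
        exact ⟨x, fun v => (hx v).resolve_left (h1 v), Or.inl h0, le_rfl⟩

lemma matching (j : ℕ) : (∃ x : V → ℤ, Tri x ∧ ∑ w, x w = 0 ∧
      (univ.filter (fun w => x w ≠ 0)).card = 2 * j ∧ B G x x ≤ -(2 * j : ℤ)) ∨
    ∃ S : Finset V, S.card ≤ 2 * j ∧ ∀ u v, G.Adj u v → u ∈ S ∨ v ∈ S := by
  induction j with
  | zero => exact Or.inl ⟨0, fun _ => Or.inl rfl, by simp, by simp, by simp [B]⟩
  | succ j ih =>
    rcases ih with ⟨x, x1, x2, x3, x4⟩ | ⟨S, h1, h2⟩
    · by_cases h : ∃ u v, G.Adj u v ∧ x u = 0 ∧ x v = 0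
      · obtain ⟨u, v, huv, hu, hv⟩ := h
        obtain ⟨y, y1, y2, y3, y4⟩ := step G x x1 huv.ne hu hv
        rw [if_pos huv] at y4
        exact Or.inl ⟨y, y1, y2.trans x2, by omega, by push_cast; linarith⟩
      · refine Or.inr ⟨univ.filter (fun w => x w ≠ 0), by omega, fun u v huv => ?_⟩
        by_contra h'
        simp only [mem_filter, mem_univ, true_and, not_or, not_not] at h'
        exact h ⟨u, v, huv, h'.1, h'.2⟩
    · exact Or.inr ⟨S, by omega, h2⟩

lemma cover_case (δ : ℕ) (hδ : ∀ v, δ ≤ G.degree v) (S : Finset V)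
    (hS : ∀ u v, G.Adj u v → u ∈ S ∨ v ∈ S) (hn : S.card + 2 ^ S.card * δ < Fintype.card V) :
    ∃ x : V → ℤ, Tri x ∧ ∑ w, x w = 0 ∧ B G x x ≤ -((δ : ℤ) * (δ + 1)) := by
  have hc : S.powerset.card * δ < (univ \ S).card := by
    rw [card_powerset, card_sdiff_of_subset (subset_univ _), card_univ]; omega
  obtain ⟨T, -, hT⟩ := exists_lt_card_fiber_of_mul_lt_card_of_maps_to
    (f := fun v => G.neighborFinset v) (fun v hv => by
      rw [mem_powerset]
      intro w hw
      rw [SimpleGraph.mem_neighborFinset] at hw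
      exact (hS v w hw).resolve_left (mem_sdiff.1 hv).2) hc
  obtain ⟨v0, hv0⟩ := card_pos.1 (lt_of_le_of_lt (Nat.zero_le _) hT)
  obtain ⟨Y, hY1, hY2⟩ := exists_subset_card_eq hT.le
  have hTc : δ ≤ T.card := by rw [← (mem_filter.1 hv0).2]; exact hδ v0
  obtain ⟨X, hX1, hX2⟩ := exists_subset_card_eq hTc
  have hYS : ∀ v ∈ Y, v ∉ S := fun v hv => (mem_sdiff.1 (mem_filter.1 (hY1 hv)).1).2
  have hXY : ∀ v ∈ Y, ∀ u ∈ X, G.Adj v u := by
    intro v hv u hu
    rw [← SimpleGraph.mem_neighborFinset, (mem_filter.1 (hY1 hv)).2]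
    exact hX1 hu
  have hXS : ∀ u ∈ X, u ∈ S := by
    intro u hu
    have : G.Adj v0 u := by
      rw [← SimpleGraph.mem_neighborFinset, (mem_filter.1 hv0).2]; exact hX1 hu
    exact (hS _ _ this).resolve_left (mem_sdiff.1 (mem_filter.1 hv0).1).2
  let a : V → ℤ := fun v => if v ∈ X then 1 else 0
  let c : V → ℤ := fun v => if v ∈ Y then 1 else 0
  have hB : ∀ P Q : Finset V, B G (fun v => if v ∈ P then 1 else 0) (fun v => if v ∈ Q then 1 else 0)
      = ∑ u ∈ P, ∑ v ∈ Q, (if G.Adj u v then 1 else 0) := by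
    intro P Q
    unfold B
    rw [← sum_subset (subset_univ P)]
    · refine sum_congr rfl fun u hu => ?_
      rw [← sum_subset (subset_univ Q)]
      · refine sum_congr rfl fun v hv => ?_
        simp [hu, hv]
      · intro v _ hv; simp [hv]
    · intro u _ hu; simp [hu]
  refine ⟨a + (-1 : ℤ) • c, fun v => ?_, ?_, ?_⟩
  · by_cases h1 : v ∈ X
    · have h2 : v ∉ Y := fun h2 => hYS v h2 (hXS v h1)
      simp [a, c, h1, h2]
    · by_cases h2 : v ∈ Y <;> simp [a, c, h1, h2]
  · simp [a, c, sum_add_distrib, hX2, hY2]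
  · rw [B_add]
    have b1 : B G a a ≤ δ * (δ - 1) := by
      simp only [a]
      rw [hB]
      calc ∑ u ∈ X, ∑ v ∈ X, (if G.Adj u v then (1 : ℤ) else 0) ≤ ∑ u ∈ X, ((δ : ℤ) - 1) := by
            refine sum_le_sum fun u hu => ?_
            rw [← add_sum_erase _ _ hu, if_neg G.irrefl, zero_add]
            calc ∑ v ∈ X.erase u, (if G.Adj u v then (1 : ℤ) else 0) ≤ ∑ v ∈ X.erase u, (1 : ℤ) :=
                  sum_le_sum fun v _ => by split_ifs <;> norm_num
              _ = _ := by
                  have := card_erase_add_one hu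
                  simp only [sum_const, nsmul_eq_mul, mul_one]
                  omega
        _ = _ := by simp [hX2]; ring
    have b2 : B G a c = δ * δ := by
      simp only [a, c]
      rw [hB, sum_congr rfl (g := fun _ => (δ : ℤ))]
      · simp [hX2]
      · intro u hu
        rw [sum_congr rfl (g := fun _ => (1 : ℤ)) (fun v hv => if_pos (hXY v hv u hu).symm)]
        simp [hY2]
    have b3 : B G c c = 0 := by
      simp only [c]
      rw [hB]
      refine sum_eq_zero fun u hu => sum_eq_zero fun v hv => if_neg fun h => ?_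
      rcases hS u v h with h | h
      · exact hYS u hu h
      · exact hYS v hv h
    rw [b2, b3]
    linarith

/-- number of cut edges -/
def cut (A : Finset V) : ℕ :=
  (univ.filter (fun p : V × V => p.1 ∈ A ∧ p.2 ∉ A ∧ G.Adj p.1 p.2)).card

lemma B_full (y : V → ℤ) (hy : ∀ v, y v = 1 ∨ y v = -1) :
    B G y y = 2 * G.edgeFinset.card - 4 * cut G (univ.filter (fun v => y v = 1)) := by
  set A := univ.filter (fun v => y v = 1) with hA
  have h1 : (2 * G.edgeFinset.card : ℤ) = ∑ u, ∑ v, (if G.Adj u v then (1 : ℤ) else 0) := by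
    have := G.sum_degrees_eq_twice_card_edges
    have h2 : ∀ u, (G.degree u : ℤ) = ∑ v, (if G.Adj u v then (1 : ℤ) else 0) := by
      intro u
      rw [← SimpleGraph.card_neighborFinset_eq_degree, SimpleGraph.neighborFinset_eq_filter]
      simp
    simp only [← h2]
    exact_mod_cast this.symm
  have h2 : (cut G A : ℤ) = ∑ u, ∑ v, (if u ∈ A ∧ v ∉ A ∧ G.Adj u v then (1 : ℤ) else 0) := by
    rw [cut, card_filter, Fintype.sum_prod_type]
    push_cast; rfl
  have h3 : (cut G A : ℤ) = ∑ u, ∑ v, (if v ∈ A ∧ u ∉ A ∧ G.Adj v u then (1 : ℤ) else 0) := by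
    rw [h2, sum_comm]
  have h4 : (4 * cut G A : ℤ) = 2 * cut G A + 2 * cut G A := by ring
  rw [h4, h1]
  nth_rewrite 1 [h2]
  rw [h3]
  unfold B
  simp only [mul_sum, ← sum_add_distrib, ← sum_sub_distrib]
  refine sum_congr rfl fun u _ => sum_congr rfl fun v _ => ?_
  by_cases h : G.Adj u v
  · rcases hy u with a | a <;> rcases hy v with b | b <;> simp [hA, h, h.symm, a, b]
  · have h' : ¬ G.Adj v u := fun h' => h h'.symm
    simp [h, h']

theorem lower (δ : ℕ) (hδ : ∀ v, δ ≤ G.degree v)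
    (hm : δ * (δ + 1) * (δ * (δ + 1) + 2 ^ (δ * (δ + 1)) * δ) < G.edgeFinset.card) :
    ∃ A : Finset V, A.card ≤ Aᶜ.card ∧ Aᶜ.card ≤ A.card + 1 ∧
      2 * G.edgeFinset.card + δ * (δ + 1) ≤ 4 * cut G A := by
  obtain ⟨j, hj⟩ : ∃ j, δ * (δ + 1) = 2 * j := by
    obtain ⟨j, hj⟩ := Nat.even_mul_succ_self δ
    exact ⟨j, by omega⟩
  have h1 : ∃ x : V → ℤ, Tri x ∧ ∑ w, x w = 0 ∧ B G x x ≤ -((δ : ℤ) * (δ + 1)) := by
    rcases matching G j with ⟨x, x1, x2, -, x4⟩ | ⟨S, h1, h2⟩
    · refine ⟨x, x1, x2, ?_⟩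
      have : (δ : ℤ) * (δ + 1) = 2 * j := by exact_mod_cast hj
      rw [this]; exact x4
    · apply cover_case G δ hδ S h2
      have a1 : G.edgeFinset.card ≤ S.card * Fintype.card V := by
        have : G.edgeFinset ⊆ (S ×ˢ (univ : Finset V)).image (fun p => s(p.1, p.2)) := by
          intro e he
          induction e using Sym2.ind with
          | _ u v =>
            rw [SimpleGraph.mem_edgeFinset, SimpleGraph.mem_edgeSet] at he
            rcases h2 u v he with h | h
            · exact mem_image.2 ⟨(u, v), mem_product.2 ⟨h, mem_univ _⟩, rfl⟩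
            · exact mem_image.2 ⟨(v, u), mem_product.2 ⟨h, mem_univ _⟩, Sym2.eq_swap⟩
        refine (card_le_card this).trans (card_image_le.trans ?_)
        simp
      rw [← hj] at h1
      have a2 : S.card + 2 ^ S.card * δ ≤ δ * (δ + 1) + 2 ^ (δ * (δ + 1)) * δ :=
        add_le_add h1 (Nat.mul_le_mul_right _ (Nat.pow_le_pow_right (by norm_num) h1))
      by_contra h
      have a3 := Nat.mul_le_mul h1 ((not_lt.1 h).trans a2)
      omega
  obtain ⟨x, x1, x2, x3⟩ := h1
  obtain ⟨y, y1, y2, y3⟩ := extend G (Fintype.card V) x x1 x2 (by omega)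
  have fin : ∀ y : V → ℤ, (∀ v, y v = 1 ∨ y v = -1) → (∑ w, y w = 0 ∨ ∑ w, y w = -1) →
      B G y y ≤ -((δ : ℤ) * (δ + 1)) → ∃ A : Finset V, A.card ≤ Aᶜ.card ∧ Aᶜ.card ≤ A.card + 1 ∧
      2 * G.edgeFinset.card + δ * (δ + 1) ≤ 4 * cut G A := by
    intro y y1 y2 y3
    rw [B_full G y y1] at y3
    set A := univ.filter (fun v => y v = 1) with hA
    have : ∑ w, y w = (A.card : ℤ) - Aᶜ.card := by
      rw [← sum_add_sum_compl A, sum_congr rfl (g := fun _ => (1 : ℤ)) (fun v hv => (mem_filter.1 hv).2),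
        sum_congr rfl (g := fun _ => (-1 : ℤ)) (s₁ := Aᶜ)
          (fun v hv => (y1 v).resolve_left (by simpa [hA] using hv))]
      simp; ring
    refine ⟨A, by omega, by omega, ?_⟩
    have : (2 * G.edgeFinset.card + δ * (δ + 1) : ℤ) ≤ 4 * cut G A := by linarith
    exact_mod_cast this
  rcases y2 with h | h | h
  · exact fin y y1 (Or.inl h) (y3.trans x3)
  · refine fin (-y) (fun v => by rcases y1 v with a | a <;> simp [a]) (Or.inr (by simp [h])) ?_
    have : B G (-y) (-y) = B G y y := by simp [B]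
    rw [this]; exact y3.trans x3
  · exact fin y y1 (Or.inr h) (y3.trans x3)

end Pool.Agent.H.MP_5de61a_co
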