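import Pool.Agent.H.MP_5de61a_co.A

namespace Pool.Agent.H.MP_5de61a_co

open Finset

/-- adjacency of the example -/
def rel (δ c u v : ℕ) : Prop :=
  u ≠ v ∧ (u < δ ∨ v < δ ∨ (u = δ ∧ v ≤ δ + c) ∨ (v = δ ∧ u ≤ δ + c))

instance (δ c : ℕ) : DecidableRel (rel δ c) := fun u v => by unfold rel; infer_instance

/-- hubs joined to everything plus a star -/
def Ex (n δ c : ℕ) : SimpleGraph (Fin n) where
  Adj u v := rel δ c u v
  symm := ⟨fun u v h => by unfold rel at *; omega⟩
  loopless := ⟨fun u h => h.1 rfl⟩

instance (n δ c : ℕ) : DecidableRel (Ex n δ c).Adj := fun u v => inferInstanceAs (Decidable (rel δ c u v))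

lemma Ex_deg (n δ c : ℕ) (hn : δ + c < n) (v : Fin n) : (Ex n δ c).degree v =
    if (v : ℕ) < δ then n - 1 else δ + (if (v : ℕ) = δ then c else if (v : ℕ) ≤ δ + c then 1 else 0) := by
  have h : (Ex n δ c).degree v = ((range n).filter (rel δ c v)).card := by
    rw [← SimpleGraph.card_neighborFinset_eq_degree, SimpleGraph.neighborFinset_eq_filter,
      card_filter, card_filter]
    exact Fin.sum_univ_eq_sum_range (fun w => if rel δ c v w then 1 else 0) n
  rw [h]
  have hv := v.2
  split_ifs with h1 h2 h3
  · have : (range n).filter (rel δ c v) = (range n).erase v := by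
      ext w; simp only [mem_filter, mem_range, mem_erase, rel]; omega
    rw [this, card_erase_of_mem (mem_range.2 hv), card_range]
  · have : (range n).filter (rel δ c v) = (range (δ + c + 1)).erase δ := by
      ext w; simp only [mem_filter, mem_range, mem_erase, rel]; omega
    rw [this, card_erase_of_mem (mem_range.2 (by omega)), card_range]; omega
  · have : (range n).filter (rel δ c v) = range (δ + 1) := by
      ext w; simp only [mem_filter, mem_range, rel]; omega
    rw [this, card_range]
  · have : (range n).filter (rel δ c v) = range δ := by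
      ext w; simp only [mem_filter, mem_range, rel]; omega
    rw [this, card_range]; omega

lemma Ex_edges (N δ c : ℕ) (hN : c < N) :
    2 * (Ex (δ + N) δ c).edgeFinset.card + δ = 2 * (δ * N) + δ * δ + 2 * c := by
  rw [← SimpleGraph.sum_degrees_eq_twice_card_edges]
  simp only [Ex_deg (δ + N) δ c (by omega)]
  rw [Fin.sum_univ_eq_sum_range (fun v => if v < δ then δ + N - 1 else
    δ + (if v = δ then c else if v ≤ δ + c then 1 else 0)) (δ + N), sum_range_add]
  obtain ⟨M, rfl⟩ : ∃ M, N = (c + 1) + M := ⟨N - (c + 1), by omega⟩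
  rw [sum_congr rfl (g := fun _ => δ + c + M) (fun v hv => by
    rw [if_pos (mem_range.1 hv)]; omega)]
  rw [sum_congr rfl (s₁ := range (c + 1 + M))
    (g := fun v => δ + (if v = 0 then c else if v ≤ c then 1 else 0)) (fun v _ => by
      rw [if_neg (by omega)]; simp)]
  rw [sum_range_add _ (c + 1) M, sum_range_succ' _ c]
  rw [sum_congr rfl (s₁ := range c) (g := fun _ => δ + 1) (fun v hv => by
    have := mem_range.1 hv
    rw [if_neg (by omega), if_pos (by omega)])]
  rw [sum_congr rfl (s₁ := range M) (g := fun _ => δ + 0) (fun v hv => by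
    rw [if_neg (by omega), if_neg (by omega)])]
  simp
  ring

lemma Ex_cut (n δ c h : ℕ) (A : Finset (Fin n)) (h1 : A.card = h) (h2 : Aᶜ.card = h) :
    cut (Ex n δ c) A ≤ δ * h + c := by
  have hcard : ∀ (k : ℕ) (S : Finset (Fin n)) (f : Fin n → ℕ), (∀ v ∈ S, f v < k) →
      Set.InjOn f S → S.card ≤ k := by
    intro k S f a1 a2
    simpa using card_le_card_of_injOn f (t := range k) (fun v hv => by simpa using a1 v hv) a2
  let H := univ.filter (fun v : Fin n => (v : ℕ) < δ)
  let L := univ.filter (fun v : Fin n => δ < (v : ℕ) ∧ (v : ℕ) ≤ δ + c)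
  have hH : H.card ≤ δ := hcard δ H (fun v => v) (fun v hv => (mem_filter.1 hv).2)
    (fun _ _ _ _ h => Fin.ext h)
  have hL : L.card ≤ c := hcard c L (fun v => v - δ - 1) (fun v hv => by
      have := (mem_filter.1 hv).2; omega)
    (fun u hu v hv h => by
      have := (mem_filter.1 hu).2
      have := (mem_filter.1 hv).2
      simp only at h
      exact Fin.ext (by omega))
  let W := univ.filter (fun p : Fin n × Fin n => p.1 ∈ A ∧ p.2 ∉ A ∧
    (((p.1 : ℕ) = δ ∧ p.2 ∈ L) ∨ ((p.2 : ℕ) = δ ∧ p.1 ∈ L)))
  have hW : W.card ≤ L.card := by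
    apply card_le_card_of_injOn (fun p => if (p.1 : ℕ) = δ then p.2 else p.1)
    · intro p hp
      simp only [W, L, coe_filter, mem_filter, mem_univ, true_and, Set.mem_ofPred_eq] at hp ⊢
      split_ifs <;> omega
    · intro p hp q hq h
      simp only [W, L, coe_filter, mem_filter, mem_univ, true_and, Set.mem_ofPred_eq] at hp hq h
      obtain ⟨p1, p2, p3⟩ := hp
      obtain ⟨q1, q2, q3⟩ := hq
      split_ifs at h with a b b
      · exact Prod.ext (Fin.ext (by omega)) h
      · exact absurd (h ▸ q1) p2
      · exact absurd (h ▸ p1) q2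
      · exact Prod.ext h (Fin.ext (by omega))
  have hsub : univ.filter (fun p : Fin n × Fin n => p.1 ∈ A ∧ p.2 ∉ A ∧ (Ex n δ c).Adj p.1 p.2) ⊆
      ((H ∩ A) ×ˢ Aᶜ ∪ A ×ˢ (H \ A)) ∪ W := by
    intro p hp
    simp only [mem_filter, mem_univ, true_and, Ex, rel] at hp
    simp only [mem_union, mem_product, mem_inter, mem_sdiff, mem_compl, mem_filter, mem_univ,
      true_and, H, W, L]
    obtain ⟨p1, p2, p3⟩ := hp
    simp only [p1, p2, not_false_eq_true, and_true, true_and]
    omega
  have a1 := (card_le_card hsub).trans ((card_union_le _ _).trans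
    (add_le_add (card_union_le _ _) (hW.trans hL)))
  rw [card_product, card_product, h1, h2] at a1
  have a2 := card_inter_add_card_sdiff H A
  have a3 := Nat.mul_le_mul_right h (a2.le.trans hH)
  unfold cut
  nlinarith

end Pool.Agent.H.MP_5de61a_co
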